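import Pool.Agent.Q187.PS.Stm

/-!
Project PS (helper187), job IBP (helper299): integration by parts for Lipschitz functions.
-/

set_option autoImplicit false

open MeasureTheory Set Filter Topology Metric
open scoped NNReal

namespace Pool.Agent.Q299.PS

open Q187.PS

lemma comp_lip {M L ρ : ℝ} {g : V2 → ℝ} (hL : 0 ≤ L) (hg : Adm M L ρ g) {ψ : ℝ → ℝ} (hψ : ContDiff ℝ 1 ψ) :
    ∃ K : ℝ, 0 ≤ K ∧ (∀ v, |deriv ψ (g v)| ≤ K) ∧ LipschitzWith (Real.toNNReal (K * L)) (fun v => ψ (g v)) := by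
  have h1 : Continuous (deriv ψ) := hψ.continuous_deriv le_rfl
  obtain ⟨K, hK⟩ := (isCompact_Icc (a := (0 : ℝ)) (b := M)).exists_bound_of_continuousOn h1.continuousOn
  have hmem : ∀ v, g v ∈ Icc 0 M := fun v => ⟨hg.nonneg v, hg.le v⟩
  have hK0 : 0 ≤ K := (norm_nonneg _).trans (hK (g 0) (hmem 0))
  refine ⟨K, hK0, fun v => by simpa using hK (g v) (hmem v), ?_⟩
  refine LipschitzWith.of_dist_le_mul fun x y => ?_
  rw [Real.coe_toNNReal _ (mul_nonneg hK0 hL), dist_eq_norm, dist_eq_norm]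
  have h2 := Convex.norm_image_sub_le_of_norm_deriv_le (f := ψ) (s := Icc 0 M) (C := K)
    (fun z _ => hψ.differentiable one_ne_zero z) hK (convex_Icc 0 M) (hmem y) (hmem x)
  have h3 := hg.lip x y
  rw [← Real.norm_eq_abs] at h3
  calc ‖ψ (g x) - ψ (g y)‖ ≤ K * ‖g x - g y‖ := h2
    _ ≤ K * (L * ‖x - y‖) := mul_le_mul_of_nonneg_left h3 hK0
    _ = K * L * ‖x - y‖ := by ring

/-- the basis vectors -/
noncomputable def ee (j : Fin 2) : V2 := EuclideanSpace.single j 1

lemma sum_ee (v : V2) : v = ∑ j, v j • ee j := by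
  ext i
  simp only [ee, WithLp.ofLp_sum, WithLp.ofLp_smul, Finset.sum_apply, Pi.smul_apply, smul_eq_mul]
  simp [EuclideanSpace.single]

lemma lin_sum (T : V2 →L[ℝ] ℝ) (v : V2) : T v = ∑ j, v j * T (ee j) := by
  conv_lhs => rw [sum_ee v]
  rw [map_sum]
  simp only [map_smul, smul_eq_mul]

lemma ibp_one {M L ρ : ℝ} {g : V2 → ℝ} (hL : 0 ≤ L) (hg : Adm M L ρ g) {ψ : ℝ → ℝ} (hψ : ContDiff ℝ 1 ψ)
    {p : V2 → ℝ} (hp : ContDiff ℝ 1 p) (hpc : HasCompactSupport p) (e : V2) :
    ∫ v, (deriv ψ (g v) * fderiv ℝ g v e) * p v = - ∫ v, fderiv ℝ p v e * ψ (g v) := by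
  obtain ⟨K, hK0, hK, hlip⟩ := comp_lip hL hg hψ
  obtain ⟨D, hD⟩ := hp.lipschitzWith_of_hasCompactSupport hpc one_ne_zero
  have h1 := LipschitzWith.integral_lineDeriv_mul_eq (μ := (volume : Measure V2)) hlip hD hpc e
  have h2 : ∫ v, lineDeriv ℝ (fun v => ψ (g v)) v e * p v = ∫ v, (deriv ψ (g v) * fderiv ℝ g v e) * p v := by
    refine integral_congr_ae ?_
    filter_upwards [hg.lipschitz.ae_differentiableAt (μ := (volume : Measure V2))] with v hv
    have h3 : HasFDerivAt (fun v => ψ (g v)) (deriv ψ (g v) • fderiv ℝ g v) v :=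
      HasDerivAt.comp_hasFDerivAt v (hψ.differentiable one_ne_zero (g v)).hasDerivAt hv.hasFDerivAt
    rw [(h3.hasLineDerivAt e).lineDeriv]
    simp
  have h4 : ∫ v, lineDeriv ℝ p v (-e) * ψ (g v) = - ∫ v, fderiv ℝ p v e * ψ (g v) := by
    rw [← integral_neg]
    refine integral_congr_ae (Eventually.of_forall fun v => ?_)
    have h5 := ((hp.differentiable one_ne_zero v).hasFDerivAt.hasLineDerivAt (-e)).lineDeriv
    simp only
    rw [h5, map_neg]
    ring
  rw [← h2, h1, h4]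

theorem ibp : S_Ibp := by
  intro M L ρ g hM hL hρ hg ψ hψ χ hχ hχc
  obtain ⟨K, hK0, hK, hlip⟩ := comp_lip hL hg hψ
  have hp : ∀ j : Fin 2, ContDiff ℝ 1 (fun v : V2 => χ v * v j) := by
    intro j
    have : ContDiff ℝ 1 (fun v : V2 => v j) := by fun_prop
    exact hχ.mul this
  have hpc : ∀ j : Fin 2, HasCompactSupport (fun v : V2 => χ v * v j) := fun j => hχc.mul_right
  have key := fun j => ibp_one hL hg hψ (hp j) (hpc j) (ee j)
  have hfd : ∀ (j : Fin 2) (v : V2), fderiv ℝ (fun v : V2 => χ v * v j) v (ee j) = χ v + v j * fderiv ℝ χ v (ee j) := by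
    intro j v
    have h1 : HasFDerivAt χ (fderiv ℝ χ v) v := (hχ.differentiable one_ne_zero v).hasFDerivAt
    have h2 : HasFDerivAt (fun v : V2 => v j) (EuclideanSpace.proj j : V2 →L[ℝ] ℝ) v :=
      (EuclideanSpace.proj j : V2 →L[ℝ] ℝ).hasFDerivAt
    have h3 : HasFDerivAt (fun v : V2 => χ v * v j) (χ v • (EuclideanSpace.proj j : V2 →L[ℝ] ℝ) + v j • fderiv ℝ χ v) v := h1.mul h2
    rw [h3.fderiv]
    simp [ee]
  have hψc : Continuous (fun v => ψ (g v)) := hψ.continuous.comp hg.continuous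
  have i1 : ∀ j : Fin 2, Integrable (fun v : V2 => fderiv ℝ (fun v : V2 => χ v * v j) v (ee j) * ψ (g v)) := by
    intro j
    refine Continuous.integrable_of_hasCompactSupport ?_ ?_
    · exact (((hp j).continuous_fderiv one_ne_zero).clm_apply continuous_const).mul hψc
    · exact ((hpc j).fderiv_apply ℝ (ee j)).mul_right
  have i2 : ∀ j : Fin 2, Integrable (fun v : V2 => (deriv ψ (g v) * fderiv ℝ g v (ee j)) * (χ v * v j)) := by
    intro j
    have h1 : Integrable (fun v : V2 => χ v * v j) := (hp j).continuous.integrable_of_hasCompactSupport (hpc j)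
    refine h1.bdd_mul (c := K * (L * ‖ee j‖)) ?_ ?_
    · refine Measurable.aestronglyMeasurable ?_
      exact ((hψ.continuous_deriv le_rfl).comp hg.continuous).measurable.mul (measurable_fderiv_apply_const ℝ g (ee j))
    · refine Eventually.of_forall fun v => ?_
      rw [norm_mul, Real.norm_eq_abs, Real.norm_eq_abs]
      exact mul_le_mul (hK v) (hg.fderiv_le hL v (ee j)) (abs_nonneg _) hK0
  have e1 : ∫ v, χ v * (deriv ψ (g v) * fderiv ℝ g v v) = ∑ j, ∫ v, (deriv ψ (g v) * fderiv ℝ g v (ee j)) * (χ v * v j) := by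
    rw [← integral_finsetSum _ fun j _ => i2 j]
    refine integral_congr_ae (Eventually.of_forall fun v => ?_)
    simp only
    rw [lin_sum (fderiv ℝ g v) v, Finset.mul_sum, Finset.mul_sum]
    refine Finset.sum_congr rfl fun j _ => ?_
    ring
  have e2 : ∫ v, ψ (g v) * (2 * χ v + fderiv ℝ χ v v) = ∑ j : Fin 2, ∫ v, fderiv ℝ (fun v : V2 => χ v * v j) v (ee j) * ψ (g v) := by
    rw [← integral_finsetSum _ fun j _ => i1 j]
    refine integral_congr_ae (Eventually.of_forall fun v => ?_)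
    simp only
    rw [lin_sum (fderiv ℝ χ v) v]
    simp only [hfd, Fin.sum_univ_two]
    ring
  rw [e1, e2, ← Finset.sum_neg_distrib]
  refine Finset.sum_congr rfl fun j _ => ?_
  rw [key j, neg_neg]

end Pool.Agent.Q299.PS
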