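import Pool.Agent.Q299.PS.Rad
import Pool.Agent.Q299.PS.Ibp

/-!
Project PS (helper187), job LOWB (helper299): the integral of the divergence of the test field.
-/

set_option autoImplicit false

open MeasureTheory Set Filter Topology Metric
open scoped NNReal

namespace Pool.Agent.Q299.PS

open Q187.PS

/-- the second factor -/
abbrev WW (m : ℕ) := EuclideanSpace ℝ (Fin m)

lemma bb_contDiff (r : ℝ) : ContDiff ℝ 1 (bb r) := by
  rw [contDiff_iff_contDiffAt]
  intro s
  rcases lt_or_ge s 1 with h | h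
  · have h1 : bb r =ᶠ[𝓝 s] fun _ => 0 := by
      filter_upwards [Iio_mem_nhds h] with t ht
      unfold bb
      rw [th_zero (le_of_lt ht), zero_mul]
    exact contDiffAt_const.congr_of_eventuallyEq h1
  · have hs : s ≠ 0 := by linarith
    have h1 : ContDiffAt ℝ 1 th s := (th_contDiff 1).contDiffAt
    have h2 : ContDiffAt ℝ 1 (fun s : ℝ => √s) s := Real.contDiffAt_sqrt hs
    have h3 : √s ≠ 0 := by
      rw [Real.sqrt_ne_zero']
      linarith
    unfold bb
    exact h1.mul ((contDiffAt_const.div h2 h3).sub contDiffAt_const)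

lemma Eg_closed (m : ℕ) {g : V2 → ℝ} (hg : Continuous g) (c : ℝ) : IsClosed (Eg m g c) := by
  unfold Eg
  refine isClosed_le ?_ ?_
  · fun_prop
  · fun_prop

lemma Eg_compact (m : ℕ) {L ρ₀ : ℝ} {g : V2 → ℝ} (hg : Adm 18 L ρ₀ g) : IsCompact (Eg m g 9) := by
  refine Metric.isCompact_of_isClosed_isBounded (Eg_closed m hg.continuous 9) ?_
  refine (isBounded_closedBall (x := (0 : XX m)) (r := |ρ₀| + 3)).subset ?_
  intro x hx
  have hx1 : ‖x.snd‖ ^ 2 + 9 ≤ g x.fst := hx
  have h1 : ‖x.fst‖ ≤ ρ₀ := by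
    by_contra h
    rw [hg.out _ (not_le.1 h)] at hx1
    nlinarith [sq_nonneg ‖x.snd‖]
  have h2 : ‖x.snd‖ ≤ 3 := by
    have := hg.le x.fst
    refine abs_le_of_sq_le_sq' ?_ (by norm_num) |>.2
    linarith
  rw [mem_closedBall_zero_iff]
  have h3 : ‖x‖ ^ 2 = ‖x.fst‖ ^ 2 + ‖x.snd‖ ^ 2 := by
    rw [WithLp.prod_norm_sq_eq_of_L2]
  have h4 := le_abs_self ρ₀
  have h5 := norm_nonneg x.fst
  have h6 := norm_nonneg x.snd
  refine abs_le_of_sq_le_sq' ?_ (by positivity) |>.2
  rw [h3]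
  nlinarith

lemma Eg_int (m : ℕ) {L ρ₀ : ℝ} {g : V2 → ℝ} (hg : Adm 18 L ρ₀ g) {F : XX m → ℝ} (hF : Continuous F) :
    IntegrableOn F (Eg m g 9) := hF.continuousOn.integrableOn_compact (Eg_compact m hg)

/-- Fubini over the body -/
lemma fub (m : ℕ) {L ρ₀ : ℝ} {g : V2 → ℝ} (hg : Adm 18 L ρ₀ g) (a : V2 → ℝ) (b : WW m → ℝ)
    (ha : Continuous a) (hb : Continuous b) :
    ∫ x in Eg m g 9, a x.fst * b x.snd = ∫ v, a v * ∫ w in {w : WW m | ‖w‖ ^ 2 + 9 ≤ g v}, b w := by
  have hF : Continuous (fun x : XX m => a x.fst * b x.snd) := by fun_prop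
  have hE := (Eg_closed m hg.continuous 9).measurableSet
  have hint : Integrable ((Eg m g 9).indicator (fun x : XX m => a x.fst * b x.snd)) :=
    (integrable_indicator_iff hE).2 (Eg_int m hg hF)
  have hmp := WithLp.volume_preserving_toLp V2 (WW m)
  have hme : MeasurableEmbedding (WithLp.toLp 2 : V2 × WW m → XX m) :=
    (MeasurableEquiv.toLp 2 (V2 × WW m)).measurableEmbedding
  rw [← integral_indicator hE, ← hmp.integral_comp hme]
  have hint2 : Integrable (fun p : V2 × WW m => (Eg m g 9).indicator (fun x : XX m => a x.fst * b x.snd) (WithLp.toLp 2 p)) :=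
    (hmp.integrable_comp_emb hme).2 hint
  rw [Measure.volume_eq_prod, integral_prod _ hint2]
  refine integral_congr_ae (Eventually.of_forall fun v => ?_)
  simp only
  have hS : MeasurableSet {w : WW m | ‖w‖ ^ 2 + 9 ≤ g v} := (isClosed_le (by fun_prop) continuous_const).measurableSet
  rw [← integral_const_mul, ← integral_indicator hS]
  rfl

lemma sec_ball (m : ℕ) {s : ℝ} (hs : 9 ≤ s) : {w : WW m | ‖w‖ ^ 2 + 9 ≤ s} = closedBall 0 √(s - 9) := by
  ext w
  rw [mem_closedBall_zero_iff, Set.mem_ofPred_eq, Real.le_sqrt (norm_nonneg _) (by linarith)]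
  constructor <;> intro h <;> linarith

lemma sec_empty (m : ℕ) {s : ℝ} (hs : s < 9) : {w : WW m | ‖w‖ ^ 2 + 9 ≤ s} = ∅ := by
  ext w
  rw [Set.mem_ofPred_eq]
  simp only [mem_empty_iff_false, iff_false, not_le]
  nlinarith [sq_nonneg ‖w‖]

/-- the primitive -/
noncomputable def psi (m : ℕ) (t : ℝ) : ℝ := m * bv m / 2 * ∫ τ in (0 : ℝ)..(t - 9), kk m τ

lemma psi_deriv (m : ℕ) (t : ℝ) : HasDerivAt (psi m) (m * bv m / 2 * kk m (t - 9)) t := by
  have h1 : HasDerivAt (fun u : ℝ => ∫ τ in (0 : ℝ)..u, kk m τ) (kk m (t - 9)) (t - 9) :=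
    intervalIntegral.integral_hasDerivAt_right ((kk_continuous m).intervalIntegrable _ _)
      ((kk_continuous m).stronglyMeasurableAtFilter _ _) (kk_continuous m).continuousAt
  have h2 : HasDerivAt (fun t : ℝ => t - 9) 1 t := (hasDerivAt_id t).sub_const 9
  have h3 := (HasDerivAt.comp (h₂ := fun u : ℝ => ∫ τ in (0 : ℝ)..u, kk m τ) (h := fun t : ℝ => t - 9) t h1 h2).const_mul (m * bv m / 2)
  rw [mul_one] at h3
  exact h3

lemma psi_deriv_eq (m : ℕ) : deriv (psi m) = fun t => m * bv m / 2 * kk m (t - 9) := funext fun t => (psi_deriv m t).deriv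

lemma psi_contDiff (m : ℕ) : ContDiff ℝ 1 (psi m) := by
  rw [contDiff_one_iff_deriv]
  refine ⟨fun t => (psi_deriv m t).differentiableAt, ?_⟩
  rw [psi_deriv_eq]
  have := kk_continuous m
  fun_prop

lemma inner_th (m : ℕ) (hm : 1 ≤ m) (s : ℝ) : ∫ w in {w : WW m | ‖w‖ ^ 2 + 9 ≤ s}, th (‖w‖ ^ 2) = psi m s := by
  unfold psi
  rcases le_or_gt 9 s with h | h
  · rw [sec_ball m h, (rad m hm).2 _ (Real.sqrt_nonneg _), Real.sq_sqrt (by linarith)]
  · rw [sec_empty m h, setIntegral_empty]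
    have h1 : ∫ τ in (0 : ℝ)..(s - 9), kk m τ = ∫ τ in (0 : ℝ)..(s - 9), (0 : ℝ) := by
      refine intervalIntegral.integral_congr fun τ hτ => ?_
      rw [uIcc_of_ge (by linarith), mem_Icc] at hτ
      rw [kk_eq, th_zero (by linarith)]
      simp
    rw [h1]
    simp

lemma inner_bb (m : ℕ) (hm : 1 ≤ m) (r s : ℝ) : ∫ w in {w : WW m | ‖w‖ ^ 2 + 9 ≤ s},
    (m * bb r (‖w‖ ^ 2) + 2 * ‖w‖ ^ 2 * deriv (bb r) (‖w‖ ^ 2)) = m * bv m * ((√(s - 9)) ^ m * bb r (s - 9)) := by
  rcases le_or_gt 9 s with h | h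
  · rw [sec_ball m h, (rad m hm).1 _ (bb_contDiff r) _ (Real.sqrt_nonneg _), Real.sq_sqrt (by linarith)]
    ring
  · rw [sec_empty m h, setIntegral_empty, Real.sqrt_eq_zero_of_nonpos (by linarith), zero_pow (by omega : m ≠ 0)]
    ring

theorem lowB : S_LowB := by
  intro m hm L ρ₀ g hL hρ hg χ hχ hχc r hr
  have cχ : Continuous χ := hχ.continuous
  have cf : Continuous (fun v => fderiv ℝ χ v v) := (hχ.continuous_fderiv one_ne_zero).clm_apply continuous_id
  have cbb : Continuous (bb r) := (bb_contDiff r).continuous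
  have cdb : Continuous (deriv (bb r)) := (bb_contDiff r).continuous_deriv le_rfl
  have cth : Continuous th := th_continuous
  have ck : Continuous (kk m) := kk_continuous m
  have cg : Continuous g := hg.continuous
  -- the three terms
  have T2 := fub m hg (fun v => 2 * χ v + fderiv ℝ χ v v) (fun w => th (‖w‖ ^ 2)) (by fun_prop) (by fun_prop)
  have T3 := fub m hg χ (fun w => m * bb r (‖w‖ ^ 2) + 2 * ‖w‖ ^ 2 * deriv (bb r) (‖w‖ ^ 2)) cχ (by fun_prop)
  simp only [inner_th m hm, inner_bb m hm] at T2 T3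
  have hib := ibp 18 L ρ₀ g (by norm_num) hL hρ hg (psi m) (psi_contDiff m) χ hχ hχc
  have I1 : IntegrableOn (fun _ : XX m => ((m : ℝ) + 2) / r) (Eg m g 9) := Eg_int m hg continuous_const
  have cf2 : Continuous (fun x : XX m => fderiv ℝ χ x.fst x.fst) := cf.comp (by fun_prop)
  have I2 : IntegrableOn (fun x : XX m => (2 * χ x.fst + fderiv ℝ χ x.fst x.fst) * th (‖x.snd‖ ^ 2)) (Eg m g 9) :=
    Eg_int m hg (by fun_prop)
  have I3 : IntegrableOn (fun x : XX m => χ x.fst * (m * bb r (‖x.snd‖ ^ 2) + 2 * ‖x.snd‖ ^ 2 * deriv (bb r) (‖x.snd‖ ^ 2))) (Eg m g 9) :=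
    Eg_int m hg (by fun_prop)
  have E1 : ∫ x in Eg m g 9, dv m r χ x = (m + 2) * (volume (Eg m g 9)).toReal / r -
      1 / r * (∫ x in Eg m g 9, (2 * χ x.fst + fderiv ℝ χ x.fst x.fst) * th (‖x.snd‖ ^ 2)) +
      ∫ x in Eg m g 9, χ x.fst * (m * bb r (‖x.snd‖ ^ 2) + 2 * ‖x.snd‖ ^ 2 * deriv (bb r) (‖x.snd‖ ^ 2)) := by
    have e2 : ∀ x : XX m, dv m r χ x = (((m : ℝ) + 2) / r - 1 / r * ((2 * χ x.fst + fderiv ℝ χ x.fst x.fst) * th (‖x.snd‖ ^ 2))) +
        χ x.fst * (m * bb r (‖x.snd‖ ^ 2) + 2 * ‖x.snd‖ ^ 2 * deriv (bb r) (‖x.snd‖ ^ 2)) := by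
      intro x
      unfold dv
      ring
    simp only [e2]
    have I2' : IntegrableOn (fun x : XX m => 1 / r * ((2 * χ x.fst + fderiv ℝ χ x.fst x.fst) * th (‖x.snd‖ ^ 2))) (Eg m g 9) :=
      I2.const_mul (1 / r)
    have I12 : IntegrableOn (fun x : XX m => ((m : ℝ) + 2) / r - 1 / r * ((2 * χ x.fst + fderiv ℝ χ x.fst x.fst) * th (‖x.snd‖ ^ 2))) (Eg m g 9) :=
      I1.sub I2'
    rw [integral_add I12 I3, integral_sub I1 I2', integral_const_mul, setIntegral_const]
    simp only [Measure.real, smul_eq_mul]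
    ring
  rw [E1, T2, T3]
  have e3 : ∫ v, (2 * χ v + fderiv ℝ χ v v) * psi m (g v) = - ∫ v, χ v * (deriv (psi m) (g v) * fderiv ℝ g v v) := by
    rw [← hib]
    refine integral_congr_ae (Eventually.of_forall fun v => ?_)
    simp only
    ring
  rw [e3]
  have J1 : Integrable (fun v => χ v * (deriv (psi m) (g v) * fderiv ℝ g v v)) := by
    have h1 : Integrable (fun v : V2 => χ v * ‖v‖) :=
      (cχ.mul continuous_norm).integrable_of_hasCompactSupport hχc.mul_right
    obtain ⟨K, hK0, hK, _⟩ := comp_lip hL hg (psi_contDiff m)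
    refine Integrable.mono' (h1.norm.const_mul (K * L)) ?_ (Eventually.of_forall fun v => ?_)
    · refine Measurable.aestronglyMeasurable ?_
      have h2 : Measurable (fun v : V2 => fderiv ℝ g v v) := by
        have h3 := measurable_fderiv ℝ g
        exact (ContinuousLinearMap.measurable_apply₂ (𝕜 := ℝ) (E := V2) (F := ℝ)).comp (h3.prodMk measurable_id)
      exact cχ.measurable.mul (((((psi_contDiff m).continuous_deriv le_rfl).comp cg).measurable).mul h2)
    · rw [norm_mul, norm_mul, norm_mul, Real.norm_eq_abs, Real.norm_eq_abs, Real.norm_eq_abs, norm_norm]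
      have h4 := hg.fderiv_le hL v v
      have h5 := hK v
      have h6 := abs_nonneg (χ v)
      calc |χ v| * (|deriv (psi m) (g v)| * |fderiv ℝ g v v|) ≤ |χ v| * (K * (L * ‖v‖)) := by gcongr
        _ = K * L * (|χ v| * ‖v‖) := by ring
  have J2 : Integrable (fun v => χ v * (m * bv m * ((√(g v - 9)) ^ m * bb r (g v - 9)))) := by
    refine Continuous.integrable_of_hasCompactSupport ?_ hχc.mul_right
    have : Continuous (fun v => √(g v - 9)) := (cg.sub continuous_const).sqrt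
    fun_prop
  have e4 : ∫ v, χ v * hh m r g v = 1 / r * (∫ v, χ v * (deriv (psi m) (g v) * fderiv ℝ g v v)) +
      ∫ v, χ v * (m * bv m * ((√(g v - 9)) ^ m * bb r (g v - 9))) := by
    rw [← integral_const_mul, ← integral_add (J1.const_mul _) J2]
    refine integral_congr_ae (Eventually.of_forall fun v => ?_)
    simp only [psi_deriv_eq]
    unfold hh
    ring
  rw [e4]
  ring

end Pool.Agent.Q299.PS
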