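import Pool.Agent.Q187.PS.Stm

/-!
Project PS (helper187), job RAD (helper299): the flux of a radial field through a sphere.
-/

set_option autoImplicit false

open MeasureTheory Set Filter Topology Metric

namespace Pool.Agent.Q299.PS

open Q187.PS

lemma th_continuous : Continuous th := by
  unfold th
  exact Real.smoothTransition.continuous.comp (by fun_prop)

lemma th_contDiff (n : ℕ∞) : ContDiff ℝ n th := by
  unfold th
  exact (Real.smoothTransition.contDiff (n := n)).comp (by fun_prop)

lemma th_zero {s : ℝ} (hs : s ≤ 1) : th s = 0 := by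
  unfold th
  exact Real.smoothTransition.zero_of_nonpos (by linarith)

lemma kk_eq (m : ℕ) (s : ℝ) : kk m s = th s * (√s) ^ m / max s 1 := by
  unfold kk
  rcases le_total s 1 with h | h
  · rw [th_zero h]
    simp
  · rw [max_eq_left h]

lemma kk_continuous (m : ℕ) : Continuous (kk m) := by
  have h : kk m = fun s => th s * (√s) ^ m / max s 1 := funext (kk_eq m)
  rw [h]
  refine Continuous.div ?_ (by fun_prop) fun s => ?_
  · exact th_continuous.mul (Real.continuous_sqrt.pow m)
  · have : (1 : ℝ) ≤ max s 1 := le_max_right _ _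
    linarith

/-- integrals of radial functions over balls -/
lemma polar (m : ℕ) (hm : 1 ≤ m) (f : ℝ → ℝ) (r : ℝ) (hr : 0 ≤ r) :
    ∫ w in closedBall (0 : EuclideanSpace ℝ (Fin m)) r, f ‖w‖ = m * bv m * ∫ s in (0 : ℝ)..r, s ^ (m - 1) * f s := by
  have : Nonempty (Fin m) := ⟨⟨0, hm⟩⟩
  have h1 : ∫ w in closedBall (0 : EuclideanSpace ℝ (Fin m)) r, f ‖w‖ =
      ∫ w : EuclideanSpace ℝ (Fin m), (Iic r).indicator f ‖w‖ := by
    rw [← integral_indicator measurableSet_closedBall]
    refine integral_congr_ae (Eventually.of_forall fun w => ?_)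
    simp only [indicator, mem_closedBall_zero_iff, mem_Iic]
  rw [h1, integral_fun_norm_addHaar volume (fun s => (Iic r).indicator f s)]
  have h2 : volume.real (ball (0 : EuclideanSpace ℝ (Fin m)) 1) = bv m := by
    unfold bv Measure.real
    rw [Measure.addHaar_closedBall_eq_addHaar_ball]
  rw [h2, finrank_euclideanSpace_fin, intervalIntegral.integral_of_le hr]
  have h3 : ∫ y in Ioi (0 : ℝ), y ^ (m - 1) • (Iic r).indicator f y = ∫ s in Ioc 0 r, s ^ (m - 1) * f s := by
    rw [← integral_indicator measurableSet_Ioi, ← integral_indicator measurableSet_Ioc]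
    refine integral_congr_ae (Eventually.of_forall fun y => ?_)
    simp only [indicator, mem_Ioi, mem_Iic, mem_Ioc, smul_eq_mul]
    by_cases h4 : 0 < y
    · by_cases h5 : y ≤ r
      · rw [if_pos h4, if_pos h5, if_pos ⟨h4, h5⟩]
      · rw [if_pos h4, if_neg h5, if_neg (fun h => h5 h.2), mul_zero]
    · rw [if_neg h4, if_neg (fun h => h4 h.1)]
  rw [h3]
  simp only [nsmul_eq_mul, smul_eq_mul]
  ring

theorem rad : S_Rad := by
  intro m hm
  refine ⟨fun b hb r hr => ?_, fun r hr => ?_⟩
  · have h1 := polar m hm (fun s => m * b (s ^ 2) + 2 * s ^ 2 * deriv b (s ^ 2)) r hr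
    rw [h1]
    have h2 : ∀ s ∈ uIcc 0 r, HasDerivAt (fun s : ℝ => s ^ m * b (s ^ 2)) (s ^ (m - 1) * (m * b (s ^ 2) + 2 * s ^ 2 * deriv b (s ^ 2))) s := by
      intro s _
      have e1 : HasDerivAt (fun s : ℝ => s ^ m) (m * s ^ (m - 1)) s := hasDerivAt_pow m s
      have e2 : HasDerivAt (fun s : ℝ => s ^ 2) (2 * s) s := by simpa using hasDerivAt_pow 2 s
      have e3 : HasDerivAt b (deriv b (s ^ 2)) (s ^ 2) := (hb.differentiable one_ne_zero _).hasDerivAt
      have e4 : HasDerivAt (fun s : ℝ => b (s ^ 2)) (deriv b (s ^ 2) * (2 * s)) s :=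
        HasDerivAt.comp (h₂ := b) (h := fun s : ℝ => s ^ 2) s e3 e2
      have e5 := e1.mul e4
      refine e5.congr_deriv ?_
      obtain ⟨k, rfl⟩ : ∃ k, m = k + 1 := ⟨m - 1, by omega⟩
      simp only [Nat.add_sub_cancel]
      ring
    have hb1 : Continuous (deriv b) := hb.continuous_deriv le_rfl
    have hb0 : Continuous b := hb.continuous
    rw [intervalIntegral.integral_eq_sub_of_hasDerivAt h2]
    · rw [zero_pow (by omega : m ≠ 0)]
      ring
    · apply Continuous.intervalIntegrable
      fun_prop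
  · have h1 := polar m hm (fun s => th (s ^ 2)) r hr
    rw [h1]
    have h2 := intervalIntegral.integral_comp_mul_deriv (a := 0) (b := r) (f := fun s : ℝ => s ^ 2) (f' := fun s => 2 * s) (g := kk m)
      (fun s _ => by simpa using hasDerivAt_pow 2 s) (by fun_prop) (kk_continuous m)
    simp only [Function.comp] at h2
    have h3 : ∫ s in (0 : ℝ)..r, kk m (s ^ 2) * (2 * s) = 2 * ∫ s in (0 : ℝ)..r, s ^ (m - 1) * th (s ^ 2) := by
      rw [← intervalIntegral.integral_const_mul]
      refine intervalIntegral.integral_congr fun s hs => ?_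
      rw [uIcc_of_le hr, mem_Icc] at hs
      rcases hs.1.eq_or_lt with h4 | h4
      · rw [← h4, th_zero (by norm_num), kk_eq, th_zero (by norm_num)]
        simp
      · unfold kk
        rw [Real.sqrt_sq h4.le]
        obtain ⟨k, rfl⟩ : ∃ k, m = k + 1 := ⟨m - 1, by omega⟩
        rw [Nat.add_sub_cancel]
        field_simp
        ring
    rw [h3] at h2
    rw [zero_pow two_ne_zero] at h2
    rw [← h2]
    ring

end Pool.Agent.Q299.PS
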