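import Pool.Agent.Q88.PS.Stm

/-!
Project PS (helper88), jobs of helper299: basic facts on the transfer operator `TT` and the functions
`vv`, `RR`.
-/

set_option autoImplicit false

open MeasureTheory Set Filter Topology
open scoped ENNReal NNReal

noncomputable section

namespace Pool.Agent.Q299.PS

open Pool.Agent.Q88.PS

lemma db_le (d : D) : db d ≤ 5 := by
  unfold db
  have := d.2.isLt
  omega

lemma da_le (d : D) : da d ≤ 3 := by
  unfold da
  have := d.1.isLt
  omega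

lemma dl_nonneg {lam : ℝ} (h : 0 ≤ lam) (d : D) : 0 ≤ dl lam d := by
  unfold dl
  positivity

lemma dl_le {lam : ℝ} (h : 0 ≤ lam) (d : D) : dl lam d ≤ 7 * LL lam := by
  unfold dl LL
  have h1 : (da d : ℝ) ≤ 3 := by exact_mod_cast da_le d
  have h2 : (db d : ℝ) ≤ 5 := by exact_mod_cast db_le d
  nlinarith

/-- the digit zero -/
def d0 : D := (0, 0)

lemma dl_d0 (lam : ℝ) : dl lam d0 = 0 := by
  unfold dl d0 da db
  simp

lemma one_le_dl {lam : ℝ} (h : 1 ≤ lam) {d : D} (hd : d ≠ d0) : 1 ≤ dl lam d := by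
  unfold dl
  have h0 : (0 : ℝ) ≤ da d := by positivity
  have h0' : (0 : ℝ) ≤ db d := by positivity
  have h1 : 1 ≤ da d ∨ 1 ≤ db d := by
    by_contra hcon
    push Not at hcon
    apply hd
    unfold da db at hcon
    have e1 : d.1 = 0 := by
      apply Fin.ext
      simp
      omega
    have e2 : d.2 = 0 := by
      apply Fin.ext
      simp
      omega
    exact Prod.ext e1 e2
  rcases h1 with h1 | h1
  · have : (1 : ℝ) ≤ da d := by exact_mod_cast h1
    nlinarith
  · have : (1 : ℝ) ≤ db d := by exact_mod_cast h1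
    nlinarith

lemma LL_gt {lam : ℝ} (h : 1 ≤ lam) : 1 < LL lam := by
  unfold LL
  linarith

lemma LL_le {lam : ℝ} (h : lam ≤ 3 / 2) : LL lam ≤ 3 / 2 := by
  unfold LL
  linarith

lemma TT_mono (lam : ℝ) {F G : ℝ → ℝ≥0∞} (h : ∀ τ, F τ ≤ G τ) (τ : ℝ) : TT lam F τ ≤ TT lam G τ := by
  unfold TT
  exact mul_le_mul_right (Finset.sum_le_sum fun d _ => h _) _

lemma TT_iter_mono (lam : ℝ) {F G : ℝ → ℝ≥0∞} (h : ∀ τ, F τ ≤ G τ) (n : ℕ) (τ : ℝ) :
    (TT lam)^[n] F τ ≤ (TT lam)^[n] G τ := by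
  induction n generalizing τ with
  | zero => exact h τ
  | succ n ih =>
    rw [Function.iterate_succ_apply', Function.iterate_succ_apply']
    exact TT_mono lam ih τ

lemma TT_meas (lam : ℝ) {F : ℝ → ℝ≥0∞} (h : Measurable F) : Measurable (TT lam F) := by
  unfold TT
  refine Measurable.const_mul (Finset.measurable_sum _ fun d _ => ?_) _
  exact h.comp ((measurable_const.mul measurable_id).sub measurable_const)

lemma TT_iter_meas (lam : ℝ) {F : ℝ → ℝ≥0∞} (h : Measurable F) (n : ℕ) :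
    Measurable ((TT lam)^[n] F) := by
  induction n with
  | zero => exact h
  | succ n ih =>
    rw [Function.iterate_succ_apply']
    exact TT_meas lam ih

lemma TT_lin (lam : ℝ) (F G : ℝ → ℝ≥0∞) (a b : ℝ≥0∞) (τ : ℝ) :
    TT lam (fun σ => a * F σ + b * G σ) τ = a * TT lam F τ + b * TT lam G τ := by
  unfold TT
  rw [Finset.sum_add_distrib, ← Finset.mul_sum, ← Finset.mul_sum]
  ring

/-- one digit -/
lemma le_TT (lam : ℝ) (F : ℝ → ℝ≥0∞) (τ : ℝ) (d : D) :
    2⁻¹ * F (8 * τ - dl lam d) ≤ TT lam F τ := by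
  unfold TT
  refine mul_le_mul_right ?_ _
  exact Finset.single_le_sum (f := fun d => F (8 * τ - dl lam d)) (fun _ _ => zero_le) (Finset.mem_univ d)

lemma le_TT_iter (lam : ℝ) (F : ℝ → ℝ≥0∞) (n : ℕ) (τ : ℝ) :
    2⁻¹ ^ n * F (8 ^ n * τ) ≤ (TT lam)^[n] F τ := by
  induction n generalizing τ with
  | zero => simp
  | succ n ih =>
    rw [Function.iterate_succ_apply']
    refine le_trans ?_ (le_TT lam _ τ d0)
    rw [dl_d0, sub_zero, pow_succ', mul_assoc]
    refine mul_le_mul_right ?_ _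
    refine le_trans (le_of_eq ?_) (ih (8 * τ))
    rw [show (8 : ℝ) ^ (n + 1) * τ = 8 ^ n * (8 * τ) by ring]

/-- `F` vanishes outside of `(0, L)` -/
def Van (lam : ℝ) (F : ℝ → ℝ≥0∞) : Prop := ∀ τ, τ ∉ Ioo (0 : ℝ) (LL lam) → F τ = 0

lemma Van.TT {lam : ℝ} (hl : 0 ≤ lam) {F : ℝ → ℝ≥0∞} (h : Van lam F) : Van lam (TT lam F) := by
  intro τ hτ
  unfold Pool.Agent.Q88.PS.TT
  rw [Finset.sum_eq_zero, mul_zero]
  intro d _
  apply h
  intro hd
  apply hτ
  have h1 := dl_nonneg hl d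
  have h2 := dl_le hl d
  obtain ⟨h3, h4⟩ := hd
  constructor <;> linarith

lemma van_ind (lam : ℝ) : Van lam (ind lam) := by
  intro τ hτ
  unfold ind
  rw [indicator_of_notMem hτ]

lemma van_iter {lam : ℝ} (hl : 0 ≤ lam) {F : ℝ → ℝ≥0∞} (h : Van lam F) (n : ℕ) :
    Van lam ((TT lam)^[n] F) := by
  induction n with
  | zero => exact h
  | succ n ih =>
    rw [Function.iterate_succ_apply']
    exact Van.TT hl ih

lemma van_RR {lam : ℝ} (hl : 0 ≤ lam) (r n : ℕ) : Van lam (RR lam r n) := by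
  induction n with
  | zero =>
    intro τ hτ
    unfold RR
    rw [indicator_of_notMem]
    intro h
    exact hτ h.1
  | succ n ih =>
    intro τ hτ
    unfold RR
    by_cases h : τ ∈ (Ioo (0 : ℝ) ((1 / 8) ^ r))ᶜ
    · rw [indicator_of_mem h]
      exact Van.TT hl ih τ hτ
    · rw [indicator_of_notMem h]

lemma van_vv {lam : ℝ} (hl : 0 ≤ lam) (n : ℕ) : Van lam (vv lam n) := by
  induction n with
  | zero => exact van_ind lam
  | succ n ih =>
    intro τ hτ
    unfold vv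
    rw [van_ind lam τ hτ, Van.TT hl ih τ hτ, max_self]

lemma meas_ind (lam : ℝ) : Measurable (ind lam) := by
  unfold ind
  exact measurable_const.indicator measurableSet_Ioo

lemma meas_vv (lam : ℝ) (n : ℕ) : Measurable (vv lam n) := by
  induction n with
  | zero => exact meas_ind lam
  | succ n ih =>
    have : vv lam (n + 1) = fun τ => max (ind lam τ) (TT lam (vv lam n) τ) := rfl
    rw [this]
    exact (meas_ind lam).max (TT_meas lam ih)

lemma meas_Vs (lam : ℝ) : Measurable (Vs lam) := by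
  have : Vs lam = fun τ => ⨆ n, vv lam n τ := rfl
  rw [this]
  exact Measurable.iSup fun n => meas_vv lam n

lemma meas_RR (lam : ℝ) (r n : ℕ) : Measurable (RR lam r n) := by
  induction n with
  | zero =>
    have : RR lam r 0 = (Ioo (0 : ℝ) (LL lam) \ Ioo (0 : ℝ) ((1 / 8) ^ r)).indicator (fun _ => 1) := rfl
    rw [this]
    exact measurable_const.indicator (measurableSet_Ioo.diff measurableSet_Ioo)
  | succ n ih =>
    have : RR lam r (n + 1) = (Ioo (0 : ℝ) ((1 / 8) ^ r))ᶜ.indicator (TT lam (RR lam r n)) := rfl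
    rw [this]
    exact (TT_meas lam ih).indicator measurableSet_Ioo.compl

lemma RR_zero_of_mem (lam : ℝ) (r n : ℕ) {τ : ℝ} (h : τ ∈ Ioo (0 : ℝ) ((1 / 8) ^ r)) :
    RR lam r n τ = 0 := by
  cases n with
  | zero =>
    show (Ioo (0 : ℝ) (LL lam) \ Ioo (0 : ℝ) ((1 / 8) ^ r)).indicator (fun _ => 1) τ = 0
    rw [indicator_of_notMem]
    intro h1
    exact h1.2 h
  | succ n =>
    show (Ioo (0 : ℝ) ((1 / 8) ^ r))ᶜ.indicator (TT lam (RR lam r n)) τ = 0
    rw [indicator_of_notMem]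
    intro h1
    exact h1 h

lemma RR_succ_of_notMem (lam : ℝ) (r n : ℕ) {τ : ℝ} (h : τ ∉ Ioo (0 : ℝ) ((1 / 8) ^ r)) :
    RR lam r (n + 1) τ = TT lam (RR lam r n) τ := by
  show (Ioo (0 : ℝ) ((1 / 8) ^ r))ᶜ.indicator (TT lam (RR lam r n)) τ = _
  rw [indicator_of_mem]
  exact h

lemma RR_succ_le (lam : ℝ) (r n : ℕ) (τ : ℝ) : RR lam r (n + 1) τ ≤ TT lam (RR lam r n) τ := by
  by_cases h : τ ∈ Ioo (0 : ℝ) ((1 / 8) ^ r)
  · rw [RR_zero_of_mem lam r _ h]
    exact zero_le
  · rw [RR_succ_of_notMem lam r n h]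

lemma RR_add_le (lam : ℝ) (r n j : ℕ) (τ : ℝ) :
    RR lam r (n + j) τ ≤ (TT lam)^[j] (RR lam r n) τ := by
  induction j generalizing τ with
  | zero => exact le_rfl
  | succ j ih =>
    rw [Function.iterate_succ_apply']
    exact (RR_succ_le lam r (n + j) τ).trans (TT_mono lam ih τ)

/-- integrals -/
lemma lint_iter (h : S_tin) (lam : ℝ) {F : ℝ → ℝ≥0∞} (hF : Measurable F) (n : ℕ) :
    ∫⁻ τ, (TT lam)^[n] F τ = ∫⁻ τ, F τ := by
  induction n with
  | zero => rfl
  | succ n ih =>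
    rw [Function.iterate_succ_apply', h lam _ (TT_iter_meas lam hF n), ih]

end Pool.Agent.Q299.PS
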